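import Pool.Agent.R60.Rainbow

/-!
# MP_bfacb1_co, Q1: the set of colour counts of colourings without a rainbow copy can have gaps

Let `G = K_5` and let `H` be the house (the 4-cycle `0 1 2 3` and a vertex `4` adjacent to `0` and
`1`). There are proper edge colourings of `G` without a rainbow copy of `H` with `5` colours and with
`7` colours, but none with `6` colours.
-/

set_option autoImplicit false

namespace Pool.Agent.Results.MP_bfacb1_co.HouseGap

open Pool.Agent.R60.Rainbow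

/-- `K(G, H)`: the numbers `k ≥ 1` such that `G` has a proper edge colouring using exactly `k`
colours without a rainbow copy of `H`. -/
def colourCounts {W V : Type} (G : SimpleGraph V) (H : SimpleGraph W) : Set ℕ :=
  {k | 1 ≤ k ∧ ∃ c : Sym2 V → ℕ, IsProper G c ∧ numColours G c = k ∧ ¬ HasRainbowCopy H G c}

/-- The edges of the house, as ordered pairs. -/
def houseEdges : List (Fin 5 × Fin 5) := [(0, 1), (1, 2), (2, 3), (3, 0), (0, 4), (1, 4)]

/-- The house. -/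
def house : SimpleGraph (Fin 5) where
  Adj x y := (x, y) ∈ houseEdges ∨ (y, x) ∈ houseEdges
  symm := ⟨fun _ _ h => h.symm⟩
  loopless := ⟨by decide⟩

instance : DecidableRel house.Adj := fun x y => by
  unfold house
  infer_instance

/-- The complete graph on five vertices. -/
abbrev K5 : SimpleGraph (Fin 5) := ⊤

lemma edge_house (e : Sym2 (Fin 5)) (he : e ∈ house.edgeSet) :
    ∃ p ∈ houseEdges, e = s(p.1, p.2) := by
  induction e using Sym2.ind with
  | _ x y =>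
    rcases he with h | h
    · exact ⟨_, h, rfl⟩
    · exact ⟨_, h, Sym2.eq_swap⟩

/-! ### Indices of the edges of `K_5` -/

/-- The ten edges. -/
def E : Fin 10 → Fin 5 × Fin 5 :=
  ![(0, 1), (0, 2), (0, 3), (0, 4), (1, 2), (1, 3), (1, 4), (2, 3), (2, 4), (3, 4)]

/-- The index of an edge. -/
def idx (x y : Fin 5) : Fin 10 :=
  (![![0, 0, 1, 2, 3], ![0, 0, 4, 5, 6], ![1, 4, 0, 7, 8], ![2, 5, 7, 0, 9], ![3, 6, 8, 9, 0]] :
    Fin 5 → Fin 5 → Fin 10) x y

lemma E_idx : ∀ x y, x ≠ y → s((E (idx x y)).1, (E (idx x y)).2) = s(x, y) := by decide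

lemma E_ne : ∀ i, (E i).1 ≠ (E i).2 := by decide

/-- Two edges share exactly one vertex. -/
def share (i j : Fin 10) : Bool :=
  i ≠ j ∧ ((E i).1 = (E j).1 ∨ (E i).1 = (E j).2 ∨ (E i).2 = (E j).1 ∨ (E i).2 = (E j).2)

/-- The colour of the `i`-th edge. -/
def u (c : Sym2 (Fin 5) → ℕ) (i : Fin 10) : ℕ := c s((E i).1, (E i).2)

lemma share_spec : ∀ i j, share i j = true → ∃ x y z : Fin 5, x ≠ y ∧ x ≠ z ∧ y ≠ z ∧
    s((E i).1, (E i).2) = s(x, y) ∧ s((E j).1, (E j).2) = s(x, z) := by decide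

lemma u_ne_of_share {c : Sym2 (Fin 5) → ℕ} (hc : IsProper K5 c) (i j : Fin 10)
    (h : share i j = true) : u c i ≠ u c j := by
  obtain ⟨x, y, z, h1, h2, h3, h4, h5⟩ := share_spec i j h
  rw [u, u, h4, h5]
  exact hc x y z h1 h2 h3

/-! ### The finite check -/

/-- The `n`-th entry of a list. -/
def nth : List ℕ → ℕ → ℕ
  | [], _ => 0
  | a :: l, n => Nat.rec a (fun m _ => nth l m) n

/-- Membership. -/
def memN (a : ℕ) : List ℕ → Bool
  | [] => false
  | b :: l => Nat.beq a b || memN a l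

/-- No repetitions. -/
def nodupN : List ℕ → Bool
  | [] => true
  | a :: l => !(memN a l) && nodupN l

lemma memN_iff (a : ℕ) (l : List ℕ) : memN a l = true ↔ a ∈ l := by
  induction l with
  | nil => simp [memN]
  | cons b l ih => simp [memN, ih]

lemma nodupN_iff (l : List ℕ) : nodupN l = true ↔ l.Nodup := by
  induction l with
  | nil => simp [nodupN]
  | cons b l ih =>
    rw [nodupN, Bool.and_eq_true, ih, List.nodup_cons, Bool.not_eq_true', ← Bool.not_eq_true,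
      memN_iff]

/-- Copies of the house that suffice, with the indices of their edges. -/
def table : List ((Fin 5 → Fin 5) × List ℕ) :=
  [(![0, 1, 2, 3, 4], [0, 4, 7, 2, 3, 6]), (![0, 1, 2, 4, 3], [0, 4, 8, 3, 2, 5]),
   (![0, 1, 3, 2, 4], [0, 5, 7, 1, 3, 6]), (![0, 1, 3, 4, 2], [0, 5, 9, 3, 1, 4]),
   (![0, 1, 4, 2, 3], [0, 6, 8, 1, 2, 5]), (![0, 1, 4, 3, 2], [0, 6, 9, 2, 1, 4]),
   (![0, 2, 1, 3, 4], [1, 4, 5, 2, 3, 8]), (![0, 2, 1, 4, 3], [1, 4, 6, 3, 2, 7]),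
   (![0, 2, 3, 1, 4], [1, 7, 5, 0, 3, 8]), (![0, 2, 3, 4, 1], [1, 7, 9, 3, 0, 4]),
   (![0, 2, 4, 1, 3], [1, 8, 6, 0, 2, 7]), (![0, 2, 4, 3, 1], [1, 8, 9, 2, 0, 4]),
   (![0, 3, 1, 2, 4], [2, 5, 4, 1, 3, 9]), (![0, 3, 1, 4, 2], [2, 5, 6, 3, 1, 7]),
   (![0, 3, 2, 1, 4], [2, 7, 4, 0, 3, 9]), (![0, 3, 2, 4, 1], [2, 7, 8, 3, 0, 5]),
   (![0, 3, 4, 1, 2], [2, 9, 6, 0, 1, 7]), (![0, 3, 4, 2, 1], [2, 9, 8, 1, 0, 5]),
   (![0, 4, 1, 2, 3], [3, 6, 4, 1, 2, 9]), (![0, 4, 1, 3, 2], [3, 6, 5, 2, 1, 8]),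
   (![0, 4, 2, 1, 3], [3, 8, 4, 0, 2, 9]), (![0, 4, 2, 3, 1], [3, 8, 7, 2, 0, 6]),
   (![0, 4, 3, 1, 2], [3, 9, 5, 0, 1, 8]), (![0, 4, 3, 2, 1], [3, 9, 7, 1, 0, 6]),
   (![1, 2, 0, 3, 4], [4, 1, 2, 5, 6, 8]), (![1, 2, 0, 4, 3], [4, 1, 3, 6, 5, 7]),
   (![1, 2, 3, 0, 4], [4, 7, 2, 0, 6, 8]), (![1, 2, 3, 4, 0], [4, 7, 9, 6, 0, 1]),
   (![1, 2, 4, 0, 3], [4, 8, 3, 0, 5, 7]), (![1, 2, 4, 3, 0], [4, 8, 9, 5, 0, 1]),
   (![1, 3, 0, 2, 4], [5, 2, 1, 4, 6, 9]), (![1, 3, 0, 4, 2], [5, 2, 3, 6, 4, 7]),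
   (![1, 3, 2, 0, 4], [5, 7, 1, 0, 6, 9]), (![1, 3, 2, 4, 0], [5, 7, 8, 6, 0, 2]),
   (![1, 3, 4, 0, 2], [5, 9, 3, 0, 4, 7]), (![1, 3, 4, 2, 0], [5, 9, 8, 4, 0, 2]),
   (![1, 4, 0, 2, 3], [6, 3, 1, 4, 5, 9]), (![1, 4, 0, 3, 2], [6, 3, 2, 5, 4, 8]),
   (![1, 4, 2, 0, 3], [6, 8, 1, 0, 5, 9]), (![1, 4, 2, 3, 0], [6, 8, 7, 5, 0, 3]),
   (![1, 4, 3, 0, 2], [6, 9, 2, 0, 4, 8]), (![1, 4, 3, 2, 0], [6, 9, 7, 4, 0, 3])]

lemma table_ok : ∀ t ∈ table, Function.Injective t.1 ∧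
    t.2 = houseEdges.map (fun e => (idx (t.1 e.1) (t.1 e.2) : ℕ)) := by
  decide +kernel

/-- One if the two numbers are equal. -/
def one (a b : ℕ) : ℕ := cond (Nat.beq a b) 1 0

/-- The final check of one pattern. -/
def leaf (a4 a5 a6 a7 a8 a9 : ℕ) : Bool :=
  (!(Nat.beq (one a4 4 + one a5 5 + one a6 6 + one a7 7 + one a8 8 + one a9 9) 2)) ||
    table.any fun t => nodupN (t.2.map (nth [0, 1, 2, 3, a4, a5, a6, a7, a8, a9]))

/-- The check of all patterns. -/
def checkAll : Bool :=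
  [2, 3, 4].all fun a4 => [1, 3, 5].all fun a5 => Nat.beq a4 a5 ||
  ([1, 2, 6].all fun a6 => memN a6 [a4, a5] ||
  ([0, 3, 6, 7].all fun a7 => memN a7 [a4, a5] || (Nat.beq a7 6 && !(Nat.beq a6 6)) ||
  ([0, 2, 5, 8].all fun a8 => memN a8 [a4, a6, a7] || (Nat.beq a8 5 && !(Nat.beq a5 5)) ||
  ([0, 1, 4, 9].all fun a9 => memN a9 [a5, a6, a7, a8] || (Nat.beq a9 4 && !(Nat.beq a4 4)) ||
  leaf a4 a5 a6 a7 a8 a9))))

lemma fin_check : checkAll = true := by
  decide +kernel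

lemma exists_table {a4 a5 a6 a7 a8 a9 : ℕ} (h4 : a4 ∈ [2, 3, 4]) (h5 : a5 ∈ [1, 3, 5])
    (h6 : a6 ∈ [1, 2, 6]) (h7 : a7 ∈ [0, 3, 6, 7]) (h8 : a8 ∈ [0, 2, 5, 8]) (h9 : a9 ∈ [0, 1, 4, 9])
    (n45 : a4 ≠ a5) (n64 : a6 ≠ a4) (n65 : a6 ≠ a5) (n74 : a7 ≠ a4) (n75 : a7 ≠ a5)
    (n84 : a8 ≠ a4) (n86 : a8 ≠ a6) (n87 : a8 ≠ a7) (n95 : a9 ≠ a5) (n96 : a9 ≠ a6)
    (n97 : a9 ≠ a7) (n98 : a9 ≠ a8) (n7 : a7 = 6 → a6 = 6) (n8 : a8 = 5 → a5 = 5)
    (n9 : a9 = 4 → a4 = 4)
    (hsum : one a4 4 + one a5 5 + one a6 6 + one a7 7 + one a8 8 + one a9 9 = 2) :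
    ∃ t ∈ table, (t.2.map (nth [0, 1, 2, 3, a4, a5, a6, a7, a8, a9])).Nodup := by
  have hchk := fin_check
  simp only [checkAll, leaf, List.all_eq_true, List.any_eq_true, Bool.or_eq_true, Bool.and_eq_true,
    Bool.not_eq_true', ← Bool.not_eq_true, Nat.beq_eq, nodupN_iff, memN_iff] at hchk
  have s1 := (hchk _ h4 _ h5).resolve_left n45
  have s2 := (s1 _ h6).resolve_left (by
    simp only [List.mem_cons, List.not_mem_nil, or_false]
    tauto)
  have s3 := ((s2 _ h7).resolve_left (by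
    simp only [List.mem_cons, List.not_mem_nil, or_false]
    tauto))
  have s4 := ((s3 _ h8).resolve_left (by
    simp only [List.mem_cons, List.not_mem_nil, or_false]
    tauto))
  have s5 := ((s4 _ h9).resolve_left (by
    simp only [List.mem_cons, List.not_mem_nil, or_false]
    tauto))
  exact s5.resolve_left (fun h => h hsum)

lemma nth_spec (F : Fin 10 → ℕ) (h0 : F 0 = 0) (h1 : F 1 = 1) (h2 : F 2 = 2) (h3 : F 3 = 3)
    (i : Fin 10) : nth [0, 1, 2, 3, F 4, F 5, F 6, F 7, F 8, F 9] i = F i := by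
  fin_cases i
  · exact h0.symm
  · exact h1.symm
  · exact h2.symm
  · exact h3.symm
  all_goals rfl

lemma sum10 (F : Fin 10 → ℕ) :
    ∑ i, F i = F 0 + F 1 + F 2 + F 3 + F 4 + F 5 + F 6 + F 7 + F 8 + F 9 := by
  rw [Fin.sum_univ_castSucc, Fin.sum_univ_castSucc, Fin.sum_univ_eight]
  rfl

lemma o0 : ∀ j : Fin 10, (j = 0 ∨ (j < 0 ∧ share j 0 = false)) → j = 0 := by decide
lemma o1 : ∀ j : Fin 10, (j = 1 ∨ (j < 1 ∧ share j 1 = false)) → j = 1 := by decide
lemma o2 : ∀ j : Fin 10, (j = 2 ∨ (j < 2 ∧ share j 2 = false)) → j = 2 := by decide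
lemma o3 : ∀ j : Fin 10, (j = 3 ∨ (j < 3 ∧ share j 3 = false)) → j = 3 := by decide
lemma o4 : ∀ j : Fin 10, (j = 4 ∨ (j < 4 ∧ share j 4 = false)) → (j : ℕ) ∈ [2, 3, 4] := by decide
lemma o5 : ∀ j : Fin 10, (j = 5 ∨ (j < 5 ∧ share j 5 = false)) → (j : ℕ) ∈ [1, 3, 5] := by decide
lemma o6 : ∀ j : Fin 10, (j = 6 ∨ (j < 6 ∧ share j 6 = false)) → (j : ℕ) ∈ [1, 2, 6] := by decide
lemma o7 : ∀ j : Fin 10, (j = 7 ∨ (j < 7 ∧ share j 7 = false)) → (j : ℕ) ∈ [0, 3, 6, 7] := by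
  decide
lemma o8 : ∀ j : Fin 10, (j = 8 ∨ (j < 8 ∧ share j 8 = false)) → (j : ℕ) ∈ [0, 2, 5, 8] := by
  decide
lemma o9 : ∀ j : Fin 10, (j = 9 ∨ (j < 9 ∧ share j 9 = false)) → (j : ℕ) ∈ [0, 1, 4, 9] := by
  decide

lemma image_edges (c : Sym2 (Fin 5) → ℕ) :
    c '' K5.edgeSet = ((Finset.univ.image (u c) : Finset ℕ) : Set ℕ) := by
  ext m
  simp only [Set.mem_image, Finset.coe_image, Finset.coe_univ, Set.image_univ, Set.mem_range]
  constructor
  · rintro ⟨e, he, rfl⟩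
    induction e using Sym2.ind with
    | _ x y =>
      have hxy : x ≠ y := by simpa using he
      exact ⟨idx x y, by rw [u, E_idx x y hxy]⟩
  · rintro ⟨i, rfl⟩
    exact ⟨s((E i).1, (E i).2), by simpa using E_ne i, rfl⟩

lemma numColours_eq (c : Sym2 (Fin 5) → ℕ) :
    numColours K5 c = (Finset.univ.image (u c)).card := by
  rw [numColours, image_edges, Set.ncard_coe_finset]

/-- Every proper edge colouring of `K_5` that uses exactly six colours has a rainbow house. -/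
lemma six (c : Sym2 (Fin 5) → ℕ) (hc : IsProper K5 c) (h6 : numColours K5 c = 6) :
    HasRainbowCopy house K5 c := by
  classical
  rw [numColours_eq] at h6
  -- the first edge with the same colour
  have hne : ∀ i : Fin 10, (Finset.univ.filter (fun j => u c j = u c i)).Nonempty :=
    fun i => ⟨i, by simp⟩
  let g : Fin 10 → Fin 10 := fun i => (Finset.univ.filter (fun j => u c j = u c i)).min' (hne i)
  have g1 : ∀ i, u c (g i) = u c i := by
    intro i
    have := Finset.min'_mem _ (hne i)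
    exact (Finset.mem_filter.1 this).2
  have g2 : ∀ i, g i ≤ i := by
    intro i
    exact Finset.min'_le _ _ (by simp)
  have g3 : ∀ i j, u c i = u c j → g i = g j := by
    intro i j h
    simp only [g, h]
  have g4 : ∀ i j, g i = g j → u c i = u c j := by
    intro i j h
    rw [← g1 i, ← g1 j, h]
  have g5 : ∀ i, g (g i) = g i := fun i => g3 _ _ (g1 i)
  have hsh : ∀ i j, share i j = true → g i ≠ g j := by
    intro i j h h'
    exact u_ne_of_share hc i j h (g4 i j h')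
  have hopts : ∀ i, g i = i ∨ (g i < i ∧ share (g i) i = false) := by
    intro i
    rcases eq_or_lt_of_le (g2 i) with h | h
    · exact Or.inl h
    · refine Or.inr ⟨h, ?_⟩
      rcases hs : share (g i) i with _ | _
      · rfl
      · exact absurd (g1 i) (u_ne_of_share hc _ _ hs)
  have hcard : (Finset.univ.filter (fun i => g i = i)).card = 6 := by
    have e1 : Finset.univ.filter (fun i => g i = i) = Finset.univ.image g := by
      ext i
      simp only [Finset.mem_filter, Finset.mem_univ, true_and, Finset.mem_image]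
      constructor
      · intro h
        exact ⟨i, h⟩
      · rintro ⟨j, rfl⟩
        exact g3 _ _ (g1 j)
    have e2 : Finset.univ.image (u c) = (Finset.univ.image g).image (u c) := by
      rw [Finset.image_image]
      apply Finset.image_congr
      intro i _
      exact (g1 i).symm
    have e3 : ((Finset.univ.image g).image (u c)).card = (Finset.univ.image g).card := by
      apply Finset.card_image_of_injOn
      rintro _ hx _ hy hxy
      obtain ⟨i, _, rfl⟩ := Finset.mem_image.1 hx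
      obtain ⟨j, _, rfl⟩ := Finset.mem_image.1 hy
      apply g3
      rw [← g1 i, ← g1 j]
      exact hxy
    rw [e1, ← h6, e2, e3]
  have g0 : g 0 = 0 := o0 _ (hopts 0)
  have g11 : g 1 = 1 := o1 _ (hopts 1)
  have g22 : g 2 = 2 := o2 _ (hopts 2)
  have g33 : g 3 = 3 := o3 _ (hopts 3)
  have h4 := o4 _ (hopts 4)
  have h5 := o5 _ (hopts 5)
  have h6 := o6 _ (hopts 6)
  have h7 := o7 _ (hopts 7)
  have h8 := o8 _ (hopts 8)
  have h9 := o9 _ (hopts 9)
  have nn : ∀ i j, share i j = true → (g i : ℕ) ≠ (g j : ℕ) := fun i j h h' =>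
    hsh i j h (Fin.ext h')
  have n7 : (g 7 : ℕ) = 6 → (g 6 : ℕ) = 6 := by
    intro h
    have h1 : g 7 = 6 := Fin.ext h
    have := g5 7
    rw [h1] at this
    rw [this]
    rfl
  have n8 : (g 8 : ℕ) = 5 → (g 5 : ℕ) = 5 := by
    intro h
    have h1 : g 8 = 5 := Fin.ext h
    have := g5 8
    rw [h1] at this
    rw [this]
    rfl
  have n9 : (g 9 : ℕ) = 4 → (g 4 : ℕ) = 4 := by
    intro h
    have h1 : g 9 = 4 := Fin.ext h
    have := g5 9
    rw [h1] at this
    rw [this]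
    rfl
  have hsum : one (g 4) 4 + one (g 5) 5 + one (g 6) 6 + one (g 7) 7 + one (g 8) 8
      + one (g 9) 9 = 2 := by
    have key : ∀ i : Fin 10, one (g i) i = if g i = i then 1 else 0 := by
      intro i
      by_cases h : g i = i
      · rw [if_pos h, h, one, Nat.beq_refl]
        rfl
      · rw [if_neg h, one]
        have : Nat.beq (g i) i = false := by
          rw [← Bool.not_eq_true, Nat.beq_eq]
          exact fun h' => h (Fin.ext h')
        rw [this]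
        rfl
    have k0 := key 0
    have k1 := key 1
    have k2 := key 2
    have k3 := key 3
    rw [if_pos g0] at k0
    rw [if_pos g11] at k1
    rw [if_pos g22] at k2
    rw [if_pos g33] at k3
    rw [Finset.card_filter] at hcard
    simp only [← key] at hcard
    rw [sum10, k0, k1, k2, k3] at hcard
    have e4 : ((4 : Fin 10) : ℕ) = 4 := rfl
    have e5 : ((5 : Fin 10) : ℕ) = 5 := rfl
    have e6 : ((6 : Fin 10) : ℕ) = 6 := rfl
    have e7 : ((7 : Fin 10) : ℕ) = 7 := rfl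
    have e8 : ((8 : Fin 10) : ℕ) = 8 := rfl
    have e9 : ((9 : Fin 10) : ℕ) = 9 := rfl
    rw [e4, e5, e6, e7, e8, e9] at hcard
    omega
  obtain ⟨t, ht, hnd⟩ := exists_table h4 h5 h6 h7 h8 h9 (nn 4 5 rfl) (nn 6 4 rfl) (nn 6 5 rfl)
    (nn 7 4 rfl) (nn 7 5 rfl) (nn 8 4 rfl) (nn 8 6 rfl) (nn 8 7 rfl) (nn 9 5 rfl) (nn 9 6 rfl)
    (nn 9 7 rfl) (nn 9 8 rfl) n7 n8 n9 hsum
  obtain ⟨hinj, hidx⟩ := table_ok t ht
  obtain ⟨f, li⟩ := t
  dsimp only at hinj hidx hnd
  have hadj : ∀ a b, house.Adj a b → K5.Adj (f a) (f b) := by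
    intro a b hab
    have : a ≠ b := house.ne_of_adj hab
    simpa using hinj.ne this
  refine ⟨f, hinj, hadj, ?_⟩
  intro e he e' he' hne'
  obtain ⟨p, hp, rfl⟩ := edge_house e he
  obtain ⟨q, hq, rfl⟩ := edge_house e' he'
  have hpq : p ≠ q := by
    rintro rfl
    exact hne' rfl
  have h1 : f p.1 ≠ f p.2 := by simpa using hadj _ _ he
  have h2 : f q.1 ≠ f q.2 := by simpa using hadj _ _ he'
  rw [Sym2.map_mk, Sym2.map_mk, ← E_idx _ _ h1, ← E_idx _ _ h2]
  intro h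
  have h3 : g (idx (f p.1) (f p.2)) = g (idx (f q.1) (f q.2)) := g3 _ _ h
  have hnth := nth_spec (fun i => (g i : ℕ)) (congrArg Fin.val g0) (congrArg Fin.val g11)
    (congrArg Fin.val g22) (congrArg Fin.val g33)
  rw [hidx, List.map_map] at hnd
  refine hpq (List.inj_on_of_nodup_map hnd hp hq ?_)
  exact (hnth _).trans ((congrArg Fin.val h3).trans (hnth _).symm)

/-! ### The colourings with five and with seven colours -/

/-- The colouring of `K_5` with five colours. -/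
def col5 : Sym2 (Fin 5) → ℕ := Sym2.lift ⟨fun x y => ((x + y : Fin 5) : ℕ), by decide⟩

/-- The colouring of `K_5` with seven colours: vertex `4` sees four private colours, the rest is
coloured by three perfect matchings. -/
def col7 : Sym2 (Fin 5) → ℕ := Sym2.lift ⟨fun x y =>
  (![![0, 0, 1, 2, 3], ![0, 0, 2, 1, 4], ![1, 2, 0, 0, 5], ![2, 1, 0, 0, 6], ![3, 4, 5, 6, 0]] :
    Fin 5 → Fin 5 → ℕ) x y, by decide⟩

lemma proper5 : IsProper K5 col5 := by
  unfold IsProper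
  decide

lemma proper7 : IsProper K5 col7 := by
  unfold IsProper
  decide

lemma num5 : numColours K5 col5 = 5 := by
  rw [numColours_eq]
  decide

lemma num7 : numColours K5 col7 = 7 := by
  rw [numColours_eq]
  decide

/-- The check that no map of the house to `K_5` is injective and rainbow; the colour of the edge
`x y` is the entry `5 x + y` of the table. -/
def allCheck (tab : List ℕ) : Bool :=
  [0, 1, 2, 3, 4].all fun a => [0, 1, 2, 3, 4].all fun b => memN b [a] ||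
  ([0, 1, 2, 3, 4].all fun x => memN x [a, b] ||
  ([0, 1, 2, 3, 4].all fun y => memN y [a, b, x] ||
  ([0, 1, 2, 3, 4].all fun z => memN z [a, b, x, y] ||
    !(nodupN [nth tab (5 * a + b), nth tab (5 * b + x), nth tab (5 * x + y), nth tab (5 * y + a),
      nth tab (5 * a + z), nth tab (5 * b + z)]))))

lemma not_rainbow (c : Sym2 (Fin 5) → ℕ) (tab : List ℕ)
    (hct : ∀ x y : Fin 5, c s(x, y) = nth tab (5 * x + y)) (h : allCheck tab = true) :
    ¬ HasRainbowCopy house K5 c := by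
  rintro ⟨f, hf, hadj, hcol⟩
  simp only [allCheck, List.all_eq_true, Bool.or_eq_true, memN_iff, Bool.not_eq_true',
    ← Bool.not_eq_true, nodupN_iff] at h
  have hm : ∀ i : Fin 5, (i : ℕ) ∈ [0, 1, 2, 3, 4] := by decide
  have hn : ∀ i j : Fin 5, i ≠ j → (f i : ℕ) ≠ (f j : ℕ) := by
    intro i j h h'
    exact h (hf (Fin.ext h'))
  have h1 := (h (f 0) (hm _) (f 1) (hm _)).resolve_left (by
    simpa using hn 1 0 (by decide))
  have h2 := (h1 (f 2) (hm _)).resolve_left (by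
    simpa using ⟨hn 2 0 (by decide), hn 2 1 (by decide)⟩)
  have h3 := (h2 (f 3) (hm _)).resolve_left (by
    simpa using ⟨hn 3 0 (by decide), hn 3 1 (by decide), hn 3 2 (by decide)⟩)
  have h4 := (h3 (f 4) (hm _)).resolve_left (by
    simpa using ⟨hn 4 0 (by decide), hn 4 1 (by decide), hn 4 2 (by decide), hn 4 3 (by decide)⟩)
  apply h4
  have h5 : (houseEdges.map (fun e => c s(f e.1, f e.2))).Nodup := by
    apply List.Nodup.map_on _ (by decide)
    intro p hp q hq hpq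
    by_contra hne
    have e1 : s(p.1, p.2) ∈ house.edgeSet := Or.inl hp
    have e2 : s(q.1, q.2) ∈ house.edgeSet := Or.inl hq
    refine hcol _ e1 _ e2 ?_ hpq
    intro h3
    have h4 : ∀ p ∈ houseEdges, ∀ q ∈ houseEdges, s(p.1, p.2) = s(q.1, q.2) → p = q := by
      decide
    exact hne (h4 p hp q hq h3)
  simpa only [houseEdges, List.map_cons, List.map_nil, hct] using h5

lemma no5 : ¬ HasRainbowCopy house K5 col5 :=
  not_rainbow _ [0, 1, 2, 3, 4, 1, 2, 3, 4, 0, 2, 3, 4, 0, 1, 3, 4, 0, 1, 2, 4, 0, 1, 2, 3]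
    (by decide) (by decide +kernel)

lemma no7 : ¬ HasRainbowCopy house K5 col7 :=
  not_rainbow _ [0, 0, 1, 2, 3, 0, 0, 2, 1, 4, 1, 2, 0, 0, 5, 2, 1, 0, 0, 6, 3, 4, 5, 6, 0]
    (by decide) (by decide +kernel)

/-- `K(K_5, house)` contains `5` and `7` but not `6`. -/
lemma main : 5 ∈ colourCounts K5 house ∧ 7 ∈ colourCounts K5 house ∧
    6 ∉ colourCounts K5 house := by
  refine ⟨⟨by norm_num, col5, proper5, num5, no5⟩, ⟨by norm_num, col7, proper7, num7, no7⟩, ?_⟩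
  rintro ⟨_, c, hc, h6, hno⟩
  exact hno (six c hc h6)

/-- **Result** (negative answer to Q1 of MP_bfacb1_co). There are finite graphs `G`, `H` and
numbers `a < b < d` such that `a` and `d` belong to `K(G, H)` but `b` does not. -/
theorem result : ∃ (V W : Type) (_ : Fintype V) (_ : Fintype W) (G : SimpleGraph V)
    (H : SimpleGraph W) (a b d : ℕ), a < b ∧ b < d ∧ a ∈ colourCounts G H ∧
      d ∈ colourCounts G H ∧ b ∉ colourCounts G H :=
  ⟨Fin 5, Fin 5, inferInstance, inferInstance, K5, house, 5, 6, 7, by norm_num, by norm_num,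
    main.1, main.2.1, main.2.2⟩

end Pool.Agent.Results.MP_bfacb1_co.HouseGap
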